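import Pool.Agent.V5helper38.EP.Snd
import Pool.Agent.V5helper65.EP.BASE
import Pool.Agent.V5helper9.EP.INJ
import Pool.Agent.V5helper9.EP.CMP
import Pool.Agent.V5helper16.EP.ONE
import Pool.Agent.V5helper91.EP.CPL
import Pool.Agent.V5helper61.EP.STG

/-!
# Iterated public announcements over finite epistemic models (MP_6a7b9a_lc)

At least two agents: the set of the finitely valid formulas is hard for the co-recursively enumerable sets (so, with
the known upper bound, complete for them) and not decidable.  One agent: small models.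
-/

set_option autoImplicit false

namespace Pool.Agent.Results.MP_6a7b9a_lc.FiniteUndecidable

open Pool.Agent.V5helper38.EP
open Pool.Agent.V5helper65.EP (t_BASE)
open Pool.Agent.V5helper9.EP (t_INJ t_CMP)
open Pool.Agent.V5helper16.EP (t_ONE)
open Pool.Agent.V5helper91.EP (t_CPL)
open Pool.Agent.V5helper61.EP (t_STG)

/-- The code is injective; at least two agents: hardness for the co-recursively enumerable sets, no decision procedure;
one agent: small models. -/
theorem result :
    (∀ k : ℕ, Function.Injective (code (k := k))) ∧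
    (∀ (k : ℕ) (p : ℕ → Prop), REPred p → ∃ F : ℕ → List ℕ, Computable F ∧
      ∀ x, ∃ φ : Fm (Fin (k + 2)), code φ = F x ∧ (p x ↔ ¬ Valid φ) ∧
        (¬ p x → ∀ (W : Type) (M : Model (Fin (k + 2)) W) (w : W), sat M φ Set.univ w)) ∧
    (∀ k : ℕ, ¬ ∃ Q : List ℕ → Prop, ComputablePred Q ∧ ∀ φ : Fm (Fin (k + 2)), Q (code φ) ↔ Valid φ) ∧
    (∀ (φ : Fm (Fin 1)) (W₀ : Type) (M₀ : Model (Fin 1) W₀) (w₀ : W₀), ¬ sat M₀ φ Set.univ w₀ →
      ∃ (W : Type) (_ : Finite W) (M : Model (Fin 1) W) (w : W),
        Nat.card W ≤ 2 ^ (letters φ).card ∧ ¬ sat M φ Set.univ w) := by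
  have hard : ∀ (k : ℕ) (p : ℕ → Prop), REPred p → ∃ F : ℕ → List ℕ, Computable F ∧
      ∀ x, ∃ φ : Fm (Fin (k + 2)), code φ = F x ∧ (p x ↔ ¬ Valid φ) ∧
        (¬ p x → ∀ (W : Type) (M : Model (Fin (k + 2)) W) (w : W), sat M φ Set.univ w) := by
    intro k p hp
    obtain ⟨P, K, ok, hP⟩ := t_BASE p hp
    refine ⟨_, t_CMP k K P, fun x => ⟨_, rfl, ?_, ?_⟩⟩
    · rw [hP x]
      constructor
      · intro h hv
        obtain ⟨W, hW, M, w, hw⟩ := t_CPL t_STG k K P x ok h
        exact hv W M w hw
      · intro h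
        simp only [Valid, not_forall] at h
        obtain ⟨W, hW, M, w, hw⟩ := h
        simp only [sat, not_not] at hw
        exact t_SND k K P x ok W M w hw
    · intro h W M w hw
      exact h ((hP x).2 (t_SND k K P x ok W M w hw))
  refine ⟨t_INJ, hard, ?_, t_ONE⟩
  rintro k ⟨Q, hQ, hQV⟩
  obtain ⟨F, hF, h⟩ := hard k
    (fun n => (Nat.Partrec.Code.eval (Denumerable.ofNat Nat.Partrec.Code n) 0).Dom)
    (Nat.Partrec.Code.eval_part.comp (Computable.ofNat Nat.Partrec.Code)
      (Computable.const 0)).dom_re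
  have h1 : ComputablePred fun x => Q (F x) :=
    ComputablePred.computable_of_manyOneReducible ⟨F, hF, fun _ => Iff.rfl⟩ hQ
  have h2 : ComputablePred fun n : ℕ =>
      (Nat.Partrec.Code.eval (Denumerable.ofNat Nat.Partrec.Code n) 0).Dom := by
    refine h1.not.of_eq fun x => ?_
    obtain ⟨φ, e, hφ, -⟩ := h x
    rw [hφ, ← e, hQV]
  refine ComputablePred.halting_problem 0
    (ComputablePred.computable_of_manyOneReducible ⟨Encodable.encode, Computable.encode, fun c => ?_⟩ h2)
  simp only [Denumerable.ofNat_encode]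

end Pool.Agent.Results.MP_6a7b9a_lc.FiniteUndecidable
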